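import Pool.Agent.V11328.E6.Ham

/-! Path covers and deletions of edges. -/

open Finset

namespace Pool.Agent.V11328.E6

variable {V : Type*}

/-- A path cover of `H`: a list of nonempty lists of vertices, consecutive entries of each of them
being adjacent in `H`, such that every vertex occurs exactly once in total. -/
def IsPathCover (H : SimpleGraph V) (L : List (List V)) : Prop :=
  (∀ l ∈ L, l ≠ [] ∧ l.IsChain H.Adj) ∧ L.flatten.Nodup ∧ ∀ v, v ∈ L.flatten

/-- The path cover number. -/
noncomputable def pcn (H : SimpleGraph V) : ℕ := sInf {m | ∃ L, IsPathCover H L ∧ L.length = m}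

lemma flatten_map_single (l : List V) : (l.map (fun v => [v])).flatten = l := by
  induction l with
  | nil => rfl
  | cons a l ih => simp [ih]

lemma pcn_nonempty [Fintype V] (H : SimpleGraph V) :
    {m | ∃ L, IsPathCover H L ∧ L.length = m}.Nonempty := by
  classical
  refine ⟨_, (univ : Finset V).toList.map (fun v => [v]), ⟨?_, ?_, ?_⟩, rfl⟩
  · intro l hl
    simp only [List.mem_map] at hl
    obtain ⟨v, _, rfl⟩ := hl
    exact ⟨by simp, by simp⟩
  · rw [flatten_map_single]
    exact Finset.nodup_toList _
  · intro v
    rw [flatten_map_single]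
    simp

lemma pcn_le {H : SimpleGraph V} {L : List (List V)} (hL : IsPathCover H L) :
    pcn H ≤ L.length := Nat.sInf_le ⟨L, hL, rfl⟩

lemma pcn_spec [Fintype V] (H : SimpleGraph V) : ∃ L, IsPathCover H L ∧ L.length = pcn H :=
  Nat.sInf_mem (pcn_nonempty H)

lemma pcn_le_one_list {H : SimpleGraph V} {P : List V} (hP : P ≠ []) (hc : P.IsChain H.Adj)
    (hn : P.Nodup) (S : Finset V) (hd : ∀ v ∈ P, v ∉ S) (hcov : ∀ v, v ∈ P ∨ v ∈ S) :
    pcn H ≤ #S + 1 := by
  have : IsPathCover H (P :: S.toList.map (fun v => [v])) := by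
    refine ⟨?_, ?_, ?_⟩
    · intro l hl
      simp only [List.mem_cons, List.mem_map] at hl
      rcases hl with rfl | ⟨v, _, rfl⟩
      · exact ⟨hP, hc⟩
      · exact ⟨by simp, by simp⟩
    · rw [List.flatten_cons, flatten_map_single, List.nodup_append]
      refine ⟨hn, S.nodup_toList, ?_⟩
      intro a ha b hb hab
      subst hab
      exact hd a ha (by simpa using hb)
    · intro v
      rw [List.flatten_cons, flatten_map_single, List.mem_append]
      rcases hcov v with h | h
      · exact Or.inl h
      · exact Or.inr (by simpa using h)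
  refine (pcn_le this).trans ?_
  simp

lemma pcn_le_two_lists {H : SimpleGraph V} {P Q : List V} (hP : P ≠ []) (hc : P.IsChain H.Adj)
    (hn : P.Nodup) (hQ : Q ≠ []) (hcQ : Q.IsChain H.Adj) (hnQ : Q.Nodup)
    (hPQ : ∀ v ∈ P, v ∉ Q) (S : Finset V) (hd : ∀ v ∈ P, v ∉ S) (hdQ : ∀ v ∈ Q, v ∉ S)
    (hcov : ∀ v, v ∈ P ∨ v ∈ Q ∨ v ∈ S) :
    pcn H ≤ #S + 2 := by
  have : IsPathCover H (P :: Q :: S.toList.map (fun v => [v])) := by
    refine ⟨?_, ?_, ?_⟩
    · intro l hl
      simp only [List.mem_cons, List.mem_map] at hl
      rcases hl with rfl | rfl | ⟨v, _, rfl⟩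
      · exact ⟨hP, hc⟩
      · exact ⟨hQ, hcQ⟩
      · exact ⟨by simp, by simp⟩
    · rw [List.flatten_cons, List.flatten_cons, flatten_map_single, List.nodup_append,
        List.nodup_append]
      refine ⟨hn, ⟨hnQ, S.nodup_toList, ?_⟩, ?_⟩
      · intro a ha b hb hab
        subst hab
        exact hdQ a ha (by simpa using hb)
      · intro a ha b hb hab
        subst hab
        rw [List.mem_append] at hb
        rcases hb with hb | hb
        · exact hPQ a ha hb
        · exact hd a ha (by simpa using hb)
    · intro v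
      rw [List.flatten_cons, List.flatten_cons, flatten_map_single, List.mem_append,
        List.mem_append]
      rcases hcov v with h | h | h
      · exact Or.inl h
      · exact Or.inr (Or.inl h)
      · exact Or.inr (Or.inr (by simpa using h))
  refine (pcn_le this).trans ?_
  simp

lemma pth_list {H : SimpleGraph V} {U : Finset V} {l : ℕ} {f : ℕ → V} (h : Pth H U l f) :
    ((List.range l).map f).IsChain H.Adj ∧ ((List.range l).map f).Nodup := by
  constructor
  · rw [List.isChain_iff_getElem]
    intro i hi
    simp only [List.length_map, List.length_range] at hi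
    simp only [List.getElem_map, List.getElem_range]
    exact h.adj i hi
  · refine List.Nodup.map_on ?_ List.nodup_range
    intro x hx y hy hxy
    exact h.inj x (by simpa using hx) y (by simpa using hy) hxy

/-- Isolated vertices force many paths. -/
lemma pcn_ge_isolated [Fintype V] {H : SimpleGraph V} {S : Finset V} (hS : ∀ v ∈ S, ∀ u, ¬ H.Adj v u)
    (hw : ∃ w, w ∉ S) : #S + 1 ≤ pcn H := by
  classical
  obtain ⟨L, hL, hLen⟩ := pcn_spec H
  rw [← hLen]
  obtain ⟨w, hw⟩ := hw
  have hsing : ∀ v ∈ S, [v] ∈ L := by
    intro v hv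
    obtain ⟨l, hl, hvl⟩ := List.mem_flatten.1 (hL.2.2 v)
    have hch := (hL.1 l hl).2
    obtain ⟨l1, l2, rfl⟩ := List.append_of_mem hvl
    have h2 : l2 = [] := by
      cases l2 with
      | nil => rfl
      | cons b l3 =>
        exfalso
        have := (List.isChain_append_cons_cons.1 hch).2.1
        exact hS v hv b this
    subst h2
    have h1 : l1 = [] := by
      rcases List.eq_nil_or_concat l1 with h | ⟨l3, b, rfl⟩
      · exact h
      · exfalso
        rw [List.concat_eq_append, List.append_assoc, List.singleton_append] at hch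
        have := (List.isChain_append_cons_cons.1 hch).2.1
        exact hS v hv b this.symm
    subst h1
    simpa using hl
  obtain ⟨lw, hlw, hwl⟩ := List.mem_flatten.1 (hL.2.2 w)
  have hsub : insert lw (S.image (fun v => [v])) ⊆ L.toFinset := by
    intro l hl
    rw [mem_insert, mem_image] at hl
    rw [List.mem_toFinset]
    rcases hl with rfl | ⟨v, hv, rfl⟩
    · exact hlw
    · exact hsing v hv
  have hcard : #(insert lw (S.image (fun v => [v]))) = #S + 1 := by
    rw [card_insert_of_notMem, card_image_of_injective]
    · intro a b hab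
      simpa using hab
    · rw [mem_image]
      rintro ⟨v, hv, rfl⟩
      simp only [List.mem_singleton] at hwl
      exact hw (hwl ▸ hv)
  calc #S + 1 = #(insert lw (S.image (fun v => [v]))) := hcard.symm
    _ ≤ #L.toFinset := card_le_card hsub
    _ ≤ L.length := List.toFinset_card_le L

/-- Deleting one edge raises the path cover number by at most one. -/
lemma pcn_delete_one [Fintype V] (H : SimpleGraph V) (e : Sym2 V) :
    pcn (H.deleteEdges {e}) ≤ pcn H + 1 := by
  classical
  obtain ⟨L, hL, hLen⟩ := pcn_spec H
  rw [← hLen]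
  set H' := H.deleteEdges {e} with hH'
  have hadj : ∀ x y, H'.Adj x y ↔ H.Adj x y ∧ s(x, y) ≠ e := by
    intro x y
    rw [hH', SimpleGraph.deleteEdges_adj]
    simp
  by_cases hall : ∀ l ∈ L, l.IsChain H'.Adj
  · have : IsPathCover H' L := ⟨fun l hl => ⟨(hL.1 l hl).1, hall l hl⟩, hL.2⟩
    exact (pcn_le this).trans (by omega)
  · push Not at hall
    obtain ⟨l0, hl0, hnc⟩ := hall
    rw [List.isChain_iff_forall_rel_of_append_cons_cons] at hnc
    push Not at hnc
    obtain ⟨a, b, l1, l2, hl, hab⟩ := hnc
    have hch0 := (hL.1 l0 hl0).2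
    have hab2 : H.Adj a b := by
      rw [hl] at hch0
      exact (List.isChain_append_cons_cons.1 hch0).2.1
    have he : s(a, b) = e := by
      by_contra hne
      exact hab ((hadj a b).2 ⟨hab2, hne⟩)
    obtain ⟨L1, L2, hLL⟩ := List.append_of_mem hl0
    have hnd : (L1.flatten ++ ((l1 ++ [a]) ++ ((b :: l2) ++ L2.flatten))).Nodup := by
      have := hL.2.1
      rw [hLL, hl] at this
      simpa [List.flatten_append] using this
    have hflat : (L1 ++ (l1 ++ [a]) :: (b :: l2) :: L2).flatten = L.flatten := by
      rw [hLL, hl]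
      simp [List.flatten_append]
    have hcov : IsPathCover H' (L1 ++ (l1 ++ [a]) :: (b :: l2) :: L2) := by
      refine ⟨?_, ?_, ?_⟩
      · intro l hl'
        have hkey : ∀ l : List V, l.IsChain H.Adj → (a ∉ l ∨ b ∉ l) → l.IsChain H'.Adj := by
          intro l hc hor
          refine hc.imp_of_mem_imp ?_
          intro x y hx hy hxy
          rw [hadj]
          refine ⟨hxy, ?_⟩
          intro hcon
          rw [← he, Sym2.eq_iff] at hcon
          rcases hcon with ⟨rfl, rfl⟩ | ⟨rfl, rfl⟩
          · rcases hor with h | h <;> contradiction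
          · rcases hor with h | h <;> contradiction
        rw [hl] at hch0
        rw [List.mem_append, List.mem_cons, List.mem_cons] at hl'
        rw [List.nodup_append, List.nodup_append, List.nodup_append] at hnd
        obtain ⟨hn1, ⟨hn2, ⟨hn3, hn4, hn5⟩, hn6⟩, hn7⟩ := hnd
        rcases hl' with h | rfl | rfl | h
        · have hlL : l ∈ L := by rw [hLL]; exact List.mem_append_left _ h
          refine ⟨(hL.1 l hlL).1, hkey l (hL.1 l hlL).2 (Or.inl ?_)⟩
          intro ha
          exact hn7 a (List.mem_flatten.2 ⟨l, h, ha⟩) a (by simp) rfl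
        · refine ⟨by simp, hkey _ (List.isChain_append_cons_cons.1 hch0).1 (Or.inr ?_)⟩
          intro hb
          exact hn6 b hb b (by simp) rfl
        · refine ⟨by simp, hkey _ (List.isChain_append_cons_cons.1 hch0).2.2 (Or.inl ?_)⟩
          intro ha
          exact hn6 a (by simp) a (List.mem_append_left _ ha) rfl
        · have hlL : l ∈ L := by
            rw [hLL]; exact List.mem_append_right _ (List.mem_cons_of_mem _ h)
          refine ⟨(hL.1 l hlL).1, hkey l (hL.1 l hlL).2 (Or.inl ?_)⟩
          intro ha
          exact hn6 a (by simp) a (List.mem_append_right _ (List.mem_flatten.2 ⟨l, h, ha⟩)) rfl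
      · rw [hflat]; exact hL.2.1
      · rw [hflat]; exact hL.2.2
    refine (pcn_le hcov).trans ?_
    rw [hLL]
    simp only [List.length_append, List.length_cons]
    omega

end Pool.Agent.V11328.E6
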