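import Pool.Agent.V11328.E6.Cover

/-! Deterministic part: the least number of deletions for a given path cover number. -/

open Finset

namespace Pool.Agent.V11328.E6

variable {V : Type*} [Fintype V]

/-- `f_k(G)`: least number of edges whose deletion leaves a graph with path cover number `k`. -/
noncomputable def fk (k : ℕ) (G : SimpleGraph V) : ℕ∞ :=
  ⨅ (F : Finset (Sym2 V)) (_ : (F : Set (Sym2 V)) ⊆ G.edgeSet ∧
    pcn (G.deleteEdges (F : Set (Sym2 V))) = k), (#F : ℕ∞)

open Classical in
/-- The edges of `G` having at least one end in `S`. -/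
noncomputable def touching (G : SimpleGraph V) (S : Finset V) : Finset (Sym2 V) :=
  univ.filter (fun e => e ∈ G.edgeSet ∧ ∃ v ∈ S, v ∈ e)

/-- The least number of edges meeting a set of `k - 1` vertices. -/
noncomputable def minTouch (k : ℕ) (G : SimpleGraph V) : ℕ :=
  sInf {c | ∃ S : Finset V, #S = k - 1 ∧ #(touching G S) = c}

open Classical in
/-- Neighbourhood as a finset. -/
noncomputable def nb (G : SimpleGraph V) (v : V) : Finset V := univ.filter (G.Adj v)

open Classical in
/-- Edges of `G` between `A` and `B`. -/
noncomputable def between (G : SimpleGraph V) (A B : Finset V) : Finset (Sym2 V) :=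
  univ.filter (fun e => e ∈ G.edgeSet ∧ ∃ x ∈ A, ∃ y ∈ B, e = s(x, y))

omit [Fintype V] in
lemma del_adj (G : SimpleGraph V) (F : Finset (Sym2 V)) (x y : V) :
    (G.deleteEdges (F : Set (Sym2 V))).Adj x y ↔ G.Adj x y ∧ s(x, y) ∉ F := by
  rw [SimpleGraph.deleteEdges_adj]
  simp

lemma minTouch_spec {k : ℕ} (hk : k ≤ Fintype.card V) (G : SimpleGraph V) :
    ∃ S : Finset V, #S = k - 1 ∧ #(touching G S) = minTouch k G := by
  have hne : {c | ∃ S : Finset V, #S = k - 1 ∧ #(touching G S) = c}.Nonempty := by
    obtain ⟨S, _, hS⟩ := Finset.exists_subset_card_eq (s := (univ : Finset V)) (n := k - 1)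
      (by rw [card_univ]; omega)
    exact ⟨_, S, hS, rfl⟩
  exact Nat.sInf_mem hne

lemma minTouch_le {k : ℕ} (G : SimpleGraph V) {S : Finset V} (hS : #S = k - 1) :
    minTouch k G ≤ #(touching G S) := Nat.sInf_le ⟨S, hS, rfl⟩

lemma touching_subset (G : SimpleGraph V) (S : Finset V) :
    (touching G S : Set (Sym2 V)) ⊆ G.edgeSet := by
  classical
  intro e he
  simp only [touching, coe_filter, Set.mem_ofPred_eq] at he
  exact he.2.1

lemma touching_card_le (G : SimpleGraph V) (S : Finset V) {b : ℕ} (hb : ∀ v, #(nb G v) ≤ b) :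
    #(touching G S) ≤ #S * b := by
  classical
  have h1 : touching G S ⊆ S.biUnion (fun v => (nb G v).image (fun u => s(v, u))) := by
    intro e he
    simp only [touching, mem_filter, mem_univ, true_and] at he
    obtain ⟨he, v, hv, hve⟩ := he
    obtain ⟨u, rfl⟩ := Sym2.mem_iff_exists.1 hve
    rw [mem_biUnion]
    refine ⟨v, hv, ?_⟩
    rw [mem_image]
    exact ⟨u, by simpa [nb] using he, rfl⟩
  refine (card_le_card h1).trans ?_
  refine Finset.card_biUnion_le_card_mul _ _ _ ?_
  intro v _
  exact card_image_le.trans (hb v)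

lemma touching_isolated (G : SimpleGraph V) (S : Finset V) :
    ∀ v ∈ S, ∀ u, ¬ (G.deleteEdges (touching G S : Set (Sym2 V))).Adj v u := by
  classical
  intro v hv u h
  rw [del_adj] at h
  apply h.2
  simp only [touching, mem_filter, mem_univ, true_and]
  exact ⟨h.1, v, hv, by simp⟩

omit [Fintype V] in
/-- Covering by a Hamilton path of `U` and single vertices. -/
lemma pcn_le_of_pth {H : SimpleGraph V} {U S : Finset V} {f : ℕ → V} {l : ℕ}
    (hl : 1 ≤ l) (h : Pth H U l f) (hcov : ∀ v ∈ U, ∃ i < l, f i = v)
    (hUS : ∀ v, v ∈ U ↔ v ∉ S) : pcn H ≤ #S + 1 := by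
  obtain ⟨hc, hn⟩ := pth_list h
  refine pcn_le_one_list ?_ hc hn S ?_ ?_
  · intro h0
    have := congrArg List.length h0
    simp at this
    omega
  · intro v hv
    simp only [List.mem_map, List.mem_range] at hv
    obtain ⟨i, hi, rfl⟩ := hv
    exact (hUS _).1 (h.mem i hi)
  · intro v
    by_cases hv : v ∈ S
    · exact Or.inr hv
    · left
      obtain ⟨i, hi, rfl⟩ := hcov v ((hUS v).2 hv)
      simp only [List.mem_map, List.mem_range]
      exact ⟨i, hi, rfl⟩

/-- Hypotheses on the graph used below. -/
structure Good (G : SimpleGraph V) (k m a b : ℕ) : Prop where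
  lower : ∀ v, a ≤ #(nb G v)
  upper : ∀ v, #(nb G v) ≤ b
  pair : ∀ A B : Finset V, Disjoint A B → #A = m → #B = m → (k - 1) * b < #(between G A B)
  num : (k - 1) * b + k * k + k * (2 * m + k) < k * a

lemma card_gt {G : SimpleGraph V} {k m a b : ℕ} (hk : 2 ≤ k) (h : Good G k m a b) [Nonempty V] :
    2 * m + k < a ∧ 2 * m + k < Fintype.card V := by
  have h1 : 2 * m + k < a := by
    have := h.num
    have h2 : k * (2 * m + k) < k * a := by omega
    exact lt_of_mul_lt_mul_left h2 (Nat.zero_le k)
  refine ⟨h1, ?_⟩
  obtain ⟨v⟩ := ‹Nonempty V›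
  exact h1.trans_le ((h.lower v).trans (card_le_univ _))

/-- Few deletions leave few vertices of small degree. -/
lemma few_bad {G : SimpleGraph V} {k m a b : ℕ} (h : Good G k m a b)
    {F : Finset (Sym2 V)} (hF : #F ≤ (k - 1) * b) :
    #(univ.filter (fun v => #(nb (G.deleteEdges (F : Set (Sym2 V))) v) < 2 * m + k)) ≤ k - 1 := by
  classical
  set H := G.deleteEdges (F : Set (Sym2 V)) with hH
  by_contra hcon
  push Not at hcon
  obtain ⟨B, hBs, hBc⟩ := Finset.exists_subset_card_eq
    (s := univ.filter (fun v => #(nb H v) < 2 * m + k)) (n := k) (by omega)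
  have hbad : ∀ v ∈ B, #(nb H v) < 2 * m + k := by
    intro v hv
    have := hBs hv
    simpa using this
  -- degree in F
  have hdegF : ∀ v ∈ B, a ≤ #(F.filter (fun e => v ∈ e)) + (2 * m + k) := by
    intro v hv
    have h1 : nb G v ⊆ nb H v ∪ univ.filter (fun u => s(v, u) ∈ F) := by
      intro u hu
      simp only [nb, mem_filter, mem_univ, true_and, mem_union] at hu ⊢
      by_cases hc : s(v, u) ∈ F
      · exact Or.inr hc
      · exact Or.inl ((del_adj G F v u).2 ⟨hu, hc⟩)
    have h2 : #(univ.filter (fun u => s(v, u) ∈ F)) ≤ #(F.filter (fun e => v ∈ e)) := by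
      refine Finset.card_le_card_of_injOn (fun u => s(v, u)) ?_ ?_
      · intro u hu
        simp only [coe_filter, mem_univ, true_and, Set.mem_ofPred_eq] at hu ⊢
        exact ⟨hu, by simp⟩
      · intro u _ u' _ huu
        exact Sym2.congr_right.1 huu
    have h3 := (h.lower v).trans ((card_le_card h1).trans (card_union_le _ _))
    have h4 := hbad v hv
    omega
  have hsum : k * a ≤ ∑ v ∈ B, (#(F.filter (fun e => v ∈ e)) + (2 * m + k)) := by
    have h0 := Finset.sum_le_sum hdegF
    rw [Finset.sum_const, hBc, smul_eq_mul] at h0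
    exact h0
  rw [Finset.sum_add_distrib, Finset.sum_const, smul_eq_mul, hBc] at hsum
  have hdc : ∑ v ∈ B, #(F.filter (fun e => v ∈ e)) = ∑ e ∈ F, #(B.filter (fun v => v ∈ e)) := by
    simp_rw [Finset.card_filter]
    exact Finset.sum_comm
  have hbound : ∀ e ∈ F, #(B.filter (fun v => v ∈ e)) ≤
      1 + if (∃ x ∈ B, ∃ y ∈ B, e = s(x, y)) then 1 else 0 := by
    intro e _
    induction e with
    | h x y =>
      by_cases hx : x ∈ B ∧ y ∈ B
      · rw [if_pos ⟨x, hx.1, y, hx.2, rfl⟩]
        have : B.filter (fun v => v ∈ s(x, y)) ⊆ {x, y} := by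
          intro v hv
          rw [mem_filter, Sym2.mem_iff] at hv
          simpa using hv.2
        exact (card_le_card this).trans card_le_two
      · have : #(B.filter (fun v => v ∈ s(x, y))) ≤ 1 := by
          rw [Finset.card_le_one]
          intro v hv w hw
          rw [mem_filter, Sym2.mem_iff] at hv hw
          rcases hv with ⟨hv, rfl | rfl⟩ <;> rcases hw with ⟨hw, rfl | rfl⟩
          · rfl
          · exact absurd ⟨hv, hw⟩ hx
          · exact absurd ⟨hw, hv⟩ hx
          · rfl
        omega
  have hinner : #(F.filter (fun e => ∃ x ∈ B, ∃ y ∈ B, e = s(x, y))) ≤ k * k := by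
    have : F.filter (fun e => ∃ x ∈ B, ∃ y ∈ B, e = s(x, y)) ⊆
        (B ×ˢ B).image (fun q => s(q.1, q.2)) := by
      intro e he
      rw [mem_filter] at he
      obtain ⟨_, x, hx, y, hy, rfl⟩ := he
      rw [mem_image]
      exact ⟨(x, y), mem_product.2 ⟨hx, hy⟩, rfl⟩
    refine (card_le_card this).trans (card_image_le.trans ?_)
    rw [card_product, hBc]
  have h5 : ∑ e ∈ F, #(B.filter (fun v => v ∈ e)) ≤ #F + k * k := by
    refine (Finset.sum_le_sum hbound).trans ?_
    rw [Finset.sum_add_distrib, Finset.sum_const, smul_eq_mul, mul_one, ← Finset.card_filter]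
    omega
  have := h.num
  rw [hdc] at hsum
  omega

/-- Finding a spanning cyclic arrangement of the vertices of large degree. -/
lemma ham_of_good {G : SimpleGraph V} {k m a b : ℕ} (hk : 2 ≤ k) (hm : 1 ≤ m)
    (h : Good G k m a b)
    {F : Finset (Sym2 V)} {B : Finset V} (hB : #B ≤ k - 1)
    (hdeg : ∀ v, v ∉ B → 2 * m + k ≤ #(nb (G.deleteEdges (F : Set (Sym2 V))) v) + 1)
    (hhole : ∀ X Y : Finset V, Disjoint X B → Disjoint Y B → Disjoint X Y → #X = m → #Y = m →
      ∃ e ∈ between G X Y, e ∉ F) [Nonempty V] :
    ∃ (U : Finset V) (f : ℕ → V), (∀ v, v ∈ U ↔ v ∉ B) ∧ 1 ≤ #U ∧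
      Pth (G.deleteEdges (F : Set (Sym2 V))) U (#U) f ∧
      (G.deleteEdges (F : Set (Sym2 V))).Adj (f (#U - 1)) (f 0) ∧
      ∀ v ∈ U, ∃ i < #U, f i = v := by
  classical
  set H := G.deleteEdges (F : Set (Sym2 V)) with hH
  set U := (univ : Finset V) \ B with hU
  have hUmem : ∀ v, v ∈ U ↔ v ∉ B := by intro v; simp [hU]
  have hcard := (card_gt hk h).2
  have hUne : U.Nonempty := by
    rw [← Finset.card_pos, hU, card_sdiff_of_subset (subset_univ _), card_univ]
    omega
  obtain ⟨f, hf, hc, hcov⟩ := ham (H := H) (U := U) (m := m) hm hUne (by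
    intro v hv
    have h1 := hdeg v ((hUmem v).1 hv)
    have h2 : nb H v ⊆ U.filter (H.Adj v) ∪ B := by
      intro u hu
      simp only [nb, mem_filter, mem_univ, true_and, mem_union] at hu ⊢
      by_cases hc : u ∈ B
      · exact Or.inr hc
      · exact Or.inl ⟨(hUmem u).2 hc, hu⟩
    have h3 := (card_le_card h2).trans (card_union_le _ _)
    omega) (by
    intro A B' hA hB' hd hAc hBc
    obtain ⟨A0, hA0, hA0c⟩ := Finset.exists_subset_card_eq hAc
    obtain ⟨B0, hB0, hB0c⟩ := Finset.exists_subset_card_eq hBc
    have hdis : ∀ X : Finset V, X ⊆ U → Disjoint X B := by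
      intro X hX
      rw [Finset.disjoint_left]
      intro x hx
      exact (hUmem x).1 (hX hx)
    obtain ⟨e, he, heF⟩ := hhole A0 B0 (hdis _ (hA0.trans hA)) (hdis _ (hB0.trans hB'))
      (Finset.disjoint_of_subset_left hA0 (Finset.disjoint_of_subset_right hB0 hd)) hA0c hB0c
    simp only [between, mem_filter, mem_univ, true_and] at he
    obtain ⟨he, x, hx, y, hy, rfl⟩ := he
    exact ⟨x, hA0 hx, y, hB0 hy, (del_adj G F x y).2 ⟨he, heF⟩⟩)
  exact ⟨U, f, hUmem, hUne.card_pos, hf, hc, hcov⟩

/-- Deleting fewer than `minTouch k G` edges keeps the path cover number below `k`. -/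
theorem pcn_lt {G : SimpleGraph V} {k m a b : ℕ} (hk : 2 ≤ k) (hm : 1 ≤ m)
    (h : Good G k m a b) [Nonempty V]
    {F : Finset (Sym2 V)} (hF : #F < minTouch k G) :
    pcn (G.deleteEdges (F : Set (Sym2 V))) ≤ k - 1 := by
  classical
  set H := G.deleteEdges (F : Set (Sym2 V)) with hH
  have hcard := (card_gt hk h).2
  have hFb : #F ≤ (k - 1) * b := by
    obtain ⟨S, hS, hSt⟩ := minTouch_spec (k := k) (by omega) G
    have := touching_card_le G S h.upper
    rw [hSt, hS] at this
    omega
  set B := univ.filter (fun v => #(nb H v) < 2 * m + k) with hBdef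
  have hB : #B ≤ k - 1 := few_bad h hFb
  obtain ⟨U, f, hU, hU1, hf, hc, hcov⟩ := ham_of_good hk hm h (F := F) (B := B) hB (by
    intro v hv
    simp only [hBdef, mem_filter, mem_univ, true_and, not_lt] at hv
    exact hv.trans (Nat.le_succ _)) (by
    intro X Y _ _ hXY hX hY
    have := h.pair X Y hXY hX hY
    by_contra hcon
    push Not at hcon
    have : #(between G X Y) ≤ #F := card_le_card hcon
    omega)
  by_cases hBk : #B ≤ k - 2
  · have : pcn H ≤ #B + 1 := pcn_le_of_pth hU1 hf hcov hU
    omega
  · have hBe : #B = k - 1 := by omega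
    -- an edge of `H` touching `B`
    have hedge : ∃ e ∈ touching G B, e ∉ F := by
      by_contra hcon
      push Not at hcon
      have h1 : #(touching G B) ≤ #F := card_le_card hcon
      have h2 := minTouch_le G hBe
      omega
    obtain ⟨e, he, heF⟩ := hedge
    simp only [touching, mem_filter, mem_univ, true_and] at he
    obtain ⟨he, v, hv, hve⟩ := he
    obtain ⟨u, rfl⟩ := Sym2.mem_iff_exists.1 hve
    have hvu : H.Adj v u := (del_adj G F v u).2 ⟨he, heF⟩
    have hne : v ≠ u := hvu.ne
    by_cases huB : u ∈ B
    · -- the pair `v u` and the rest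
      obtain ⟨hch, hnd⟩ := pth_list hf
      have hmemP : ∀ w, w ∈ (List.range (#U)).map f → w ∉ B := by
        intro w hw
        simp only [List.mem_map, List.mem_range] at hw
        obtain ⟨i, hi, rfl⟩ := hw
        exact (hU _).1 (hf.mem i hi)
      have := pcn_le_two_lists (H := H) (P := (List.range (#U)).map f) (Q := [v, u]) (by
          intro h0
          have := congrArg List.length h0
          simp at this
          rw [this] at hU1
          simp at hU1) hch hnd (by simp) (by simpa using hvu)
        (by simpa using hne) (by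
          intro w hw
          have := hmemP w hw
          simp only [List.mem_cons, List.not_mem_nil, or_false, not_or]
          exact ⟨fun h => this (h ▸ hv), fun h => this (h ▸ huB)⟩)
        ((B.erase v).erase u) (by
          intro w hw hw2
          exact hmemP w hw (mem_of_mem_erase (mem_of_mem_erase hw2))) (by
          intro w hw hw2
          simp only [List.mem_cons, List.not_mem_nil, or_false] at hw
          rcases hw with rfl | rfl
          · simp at hw2
          · simp at hw2) (by
          intro w
          by_cases hwB : w ∈ B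
          · right
            by_cases h1 : w = v
            · left; simp [h1]
            · by_cases h2 : w = u
              · left; simp [h2]
              · right
                simp [h1, h2, hwB]
          · left
            obtain ⟨i, hi, rfl⟩ := hcov w ((hU w).2 hwB)
            simp only [List.mem_map, List.mem_range]
            exact ⟨i, hi, rfl⟩)
      rw [card_erase_of_mem, card_erase_of_mem hv] at this
      · have h2 : 2 ≤ #B := by
          have : ({v, u} : Finset V) ⊆ B := by
            intro w hw
            simp only [mem_insert, mem_singleton] at hw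
            rcases hw with rfl | rfl
            · exact hv
            · exact huB
          have h3 := card_le_card this
          rwa [card_pair hne] at h3
        omega
      · exact mem_erase.2 ⟨hne.symm, huB⟩
    · -- attach `v` to the Hamilton path starting at `u`
      obtain ⟨t, ht, htu⟩ := hcov u ((hU u).2 huB)
      obtain ⟨g, hg, hg0, hgf, hfg, _⟩ := rotate_cyc hf hc ht
      obtain ⟨hch, hnd⟩ := pth_list hg
      have hmemP : ∀ w, w ∈ (List.range (#U)).map g → w ∉ B := by
        intro w hw
        simp only [List.mem_map, List.mem_range] at hw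
        obtain ⟨i, hi, rfl⟩ := hw
        exact (hU _).1 (hg.mem i hi)
      have := pcn_le_one_list (H := H) (P := v :: (List.range (#U)).map g) (by simp) (by
          obtain ⟨n, hn⟩ : ∃ n, #U = n + 1 := ⟨#U - 1, by omega⟩
          rw [hn] at hch ⊢
          rw [List.range_succ_eq_map, List.map_cons] at hch ⊢
          rw [List.isChain_cons_cons]
          refine ⟨?_, hch⟩
          rw [hg0, htu]
          exact hvu) (by
          rw [List.nodup_cons]
          exact ⟨fun hh => hmemP v hh hv, hnd⟩) (B.erase v) (by
          intro w hw hw2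
          rw [List.mem_cons] at hw
          rcases hw with rfl | hw
          · simp at hw2
          · exact hmemP w hw (mem_of_mem_erase hw2)) (by
          intro w
          by_cases hwB : w ∈ B
          · by_cases h1 : w = v
            · left; simp [h1]
            · right
              simp [h1, hwB]
          · left
            obtain ⟨i, hi, rfl⟩ := hcov w ((hU w).2 hwB)
            obtain ⟨j, hj, hj2⟩ := hfg i hi
            rw [List.mem_cons]
            right
            simp only [List.mem_map, List.mem_range]
            exact ⟨j, hj, hj2.symm⟩)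
      rw [card_erase_of_mem hv] at this
      omega

/-- Exact value of the least number of deletions. -/
theorem fk_eq {G : SimpleGraph V} {k m a b : ℕ} (hk : 2 ≤ k) (hm : 1 ≤ m)
    (h : Good G k m a b) [Nonempty V] : fk k G = (minTouch k G : ℕ∞) := by
  classical
  have hcard := card_gt hk h
  obtain ⟨S, hS, hSt⟩ := minTouch_spec (k := k) (by omega) G
  apply le_antisymm
  · have hge : k ≤ pcn (G.deleteEdges (touching G S : Set (Sym2 V))) := by
      have hw : ∃ w, w ∉ S := by
        by_contra hcon
        push Not at hcon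
        have : S = univ := by ext x; simp [hcon x]
        rw [this, card_univ] at hS
        omega
      have := pcn_ge_isolated (touching_isolated G S) hw
      omega
    have hle : pcn (G.deleteEdges (touching G S : Set (Sym2 V))) ≤ k := by
      obtain ⟨U, f, hU, hU1, hf, hc, hcov⟩ := ham_of_good hk hm h (F := touching G S) (B := S)
        (by omega) (by
        intro v hv
        have h1 : nb G v ⊆ nb (G.deleteEdges (touching G S : Set (Sym2 V))) v ∪ S := by
          intro u hu
          simp only [nb, mem_filter, mem_univ, true_and, mem_union] at hu ⊢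
          by_cases hc : u ∈ S
          · exact Or.inr hc
          · refine Or.inl ((del_adj _ _ v u).2 ⟨hu, ?_⟩)
            simp only [touching, mem_filter, mem_univ, true_and, not_and, not_exists,
              Sym2.mem_iff]
            rintro _ x hx (rfl | rfl)
            · exact hv hx
            · exact hc hx
        have h2 := (h.lower v).trans ((card_le_card h1).trans (card_union_le _ _))
        have h3 := h.num
        have h4 : (k - 1) * b + k * k + k * (2 * m + k) < k * (2 * m + k + k) ∨
            2 * m + k + k ≤ a := by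
          by_cases hc : 2 * m + k + k ≤ a
          · exact Or.inr hc
          · left
            refine h3.trans_le ?_
            exact Nat.mul_le_mul_left k (by omega)
        rcases h4 with h4 | h4
        · exfalso
          have : k * (2 * m + k + k) = k * (2 * m + k) + k * k := by ring
          omega
        · omega) (by
        intro X Y hX hY hXY hXc hYc
        have h1 := h.pair X Y hXY hXc hYc
        have h2 : 0 < #(between G X Y) := by omega
        obtain ⟨e, he⟩ := Finset.card_pos.1 h2
        refine ⟨e, he, ?_⟩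
        simp only [between, mem_filter, mem_univ, true_and] at he
        obtain ⟨_, x, hx, y, hy, rfl⟩ := he
        simp only [touching, mem_filter, mem_univ, true_and, not_and, not_exists, Sym2.mem_iff]
        rintro _ z hz (rfl | rfl)
        · exact Finset.disjoint_left.1 hX hx hz
        · exact Finset.disjoint_left.1 hY hy hz)
      have := pcn_le_of_pth hU1 hf hcov hU
      omega
    rw [← hSt]
    exact iInf₂_le (touching G S) ⟨touching_subset G S, le_antisymm hle hge⟩
  · refine le_iInf₂ fun F hF => ?_
    by_contra hcon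
    push Not at hcon
    have h1 : #F < minTouch k G := by exact_mod_cast hcon
    have := pcn_lt hk hm h h1
    rw [hF.2] at this
    omega

/-- The discrete continuity argument. -/
lemma exists_eq_of_ge (G : SimpleGraph V) (k : ℕ) (hG : pcn G ≤ k) (F : Finset (Sym2 V))
    (hF : k ≤ pcn (G.deleteEdges (F : Set (Sym2 V)))) :
    ∃ F' ⊆ F, pcn (G.deleteEdges (F' : Set (Sym2 V))) = k := by
  classical
  induction F using Finset.induction_on with
  | empty =>
    refine ⟨∅, subset_rfl, ?_⟩
    simp only [coe_empty, SimpleGraph.deleteEdges_empty] at hF ⊢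
    omega
  | insert e F he ih =>
    by_cases hc : k ≤ pcn (G.deleteEdges (F : Set (Sym2 V)))
    · obtain ⟨F', hF', hF2⟩ := ih hc
      exact ⟨F', hF'.trans (subset_insert _ _), hF2⟩
    · refine ⟨insert e F, subset_rfl, ?_⟩
      have h1 := pcn_delete_one (G.deleteEdges (F : Set (Sym2 V))) e
      have h2 : (G.deleteEdges (F : Set (Sym2 V))).deleteEdges {e} =
          G.deleteEdges ((insert e F : Finset (Sym2 V)) : Set (Sym2 V)) := by
        rw [SimpleGraph.deleteEdges_deleteEdges, coe_insert, Set.insert_eq, Set.union_comm]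
      rw [h2] at h1
      omega

/-- Isolating `k - 1` vertices. -/
theorem fk_le {G : SimpleGraph V} {k b : ℕ} (hk : 1 ≤ k) (hcard : k ≤ Fintype.card V)
    (hG : pcn G ≤ k) (hb : ∀ v, #(nb G v) ≤ b) :
    fk k G ≤ ((k - 1) * b : ℕ) ∧ fk k G ≤ (minTouch k G : ℕ∞) := by
  classical
  obtain ⟨S, hS, hSt⟩ := minTouch_spec (k := k) (by omega) G
  have hge : k ≤ pcn (G.deleteEdges (touching G S : Set (Sym2 V))) := by
    have hw : ∃ w, w ∉ S := by
      by_contra hcon
      push Not at hcon
      have : S = univ := by ext x; simp [hcon x]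
      rw [this, card_univ] at hS
      omega
    have := pcn_ge_isolated (touching_isolated G S) hw
    omega
  obtain ⟨F', hF', hF2⟩ := exists_eq_of_ge G k hG _ hge
  have h1 : fk k G ≤ (#F' : ℕ∞) :=
    iInf₂_le F' ⟨fun e he => touching_subset G S (hF' he), hF2⟩
  have h2 : #F' ≤ #(touching G S) := card_le_card hF'
  have h3 := touching_card_le G S hb
  rw [hS] at h3
  refine ⟨h1.trans ?_, h1.trans ?_⟩
  · exact_mod_cast h2.trans h3
  · rw [← hSt]; exact_mod_cast h2

/-- If the path cover number already exceeds `k`, no deletion makes it `k`. -/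
lemma pcn_mono {G H : SimpleGraph V} (h : H ≤ G) : pcn G ≤ pcn H := by
  obtain ⟨L, hL, hLen⟩ := pcn_spec H
  rw [← hLen]
  exact pcn_le ⟨fun l hl => ⟨(hL.1 l hl).1, (hL.1 l hl).2.imp (fun _ _ hab => h hab)⟩, hL.2⟩

lemma fk_eq_top {G : SimpleGraph V} {k : ℕ} (h : k < pcn G) : fk k G = ⊤ := by
  rw [fk, iInf_eq_top]
  intro F
  rw [iInf_eq_top]
  intro hF
  have h1 := pcn_mono (SimpleGraph.deleteEdges_le (G := G) (F : Set (Sym2 V)))
  rw [hF.2] at h1
  omega

end Pool.Agent.V11328.E6
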