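import Mathlib

/-! A Hamiltonicity criterion: minimum degree at least `2 m` and an edge between any two disjoint
sets of size `m` force a Hamilton cycle (given as an injective enumeration). -/

open Finset

namespace Pool.Agent.V11328.E6

variable {V : Type*} [Fintype V] [DecidableEq V]

/-- `f 0, ..., f (l-1)` is a path of `H` inside `U`. -/
structure Pth (H : SimpleGraph V) (U : Finset V) (l : ℕ) (f : ℕ → V) : Prop where
  mem : ∀ i < l, f i ∈ U
  inj : ∀ i < l, ∀ j < l, f i = f j → i = j
  adj : ∀ i, i + 1 < l → H.Adj (f i) (f (i + 1))

omit [Fintype V] [DecidableEq V] in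
lemma Pth.length_le {H : SimpleGraph V} {U : Finset V} {l : ℕ} {f : ℕ → V}
    (h : Pth H U l f) : l ≤ #U := by
  have := Finset.card_le_card_of_injOn (s := range l) (t := U) f
    (fun i hi => h.mem i (by simpa using hi))
    (fun i hi j hj hij => h.inj i (by simpa using hi) j (by simpa using hj) hij)
  simpa using this

omit [Fintype V] [DecidableEq V] in
/-- Reindexing a path along an injective self map. -/
lemma Pth.reindex {H : SimpleGraph V} {U : Finset V} {l : ℕ} {f : ℕ → V}
    (h : Pth H U l f) (s : ℕ → ℕ) (hs : ∀ i < l, s i < l)
    (hinj : ∀ i < l, ∀ j < l, s i = s j → i = j)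
    (hadj : ∀ i, i + 1 < l → H.Adj (f (s i)) (f (s (i + 1)))) : Pth H U l (fun i => f (s i)) where
  mem i hi := h.mem _ (hs i hi)
  inj i hi j hj hij := hinj i hi j hj (h.inj _ (hs i hi) _ (hs j hj) hij)
  adj := hadj

omit [Fintype V] [DecidableEq V] in
/-- First rotation. -/
lemma rot1 {H : SimpleGraph V} {U : Finset V} {l : ℕ} {f : ℕ → V} (h : Pth H U l f)
    {i j : ℕ} (hi : 1 ≤ i) (hij : i ≤ j) (hj : j + 1 < l)
    (h0 : H.Adj (f 0) (f i)) (h1 : H.Adj (f (l - 1)) (f j)) (h2 : H.Adj (f (i - 1)) (f (j + 1))) :
    ∃ g, Pth H U l g ∧ H.Adj (g (l - 1)) (g 0) := by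
  set s : ℕ → ℕ := fun k => if k < i then i - 1 - k else if k ≤ j then k else l + j - k with hs
  refine ⟨fun k => f (s k), h.reindex s ?_ ?_ ?_, ?_⟩
  · intro k hk
    simp only [hs]
    split_ifs <;> omega
  · intro a ha b hb
    simp only [hs]
    split_ifs <;> omega
  · intro k hk
    have val : ∀ x y, (x = if y < i then i - 1 - y else if y ≤ j then y else l + j - y) → s y = x := by
      intro x y h; rw [h]
    by_cases c1 : k + 1 < i
    · rw [val (i - 1 - k) k (by split_ifs <;> omega),
        val (i - 1 - (k + 1)) (k + 1) (by split_ifs <;> omega)]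
      have e : i - 1 - k = (i - 1 - (k + 1)) + 1 := by omega
      rw [e]
      exact (h.adj _ (by omega)).symm
    · by_cases c2 : k + 1 = i
      · rw [val 0 k (by split_ifs <;> omega), val i (k + 1) (by split_ifs <;> omega)]
        exact h0
      · by_cases c3 : k + 1 ≤ j
        · rw [val k k (by split_ifs <;> omega), val (k + 1) (k + 1) (by split_ifs <;> omega)]
          exact h.adj _ (by omega)
        · by_cases c4 : k = j
          · rw [val j k (by split_ifs <;> omega), val (l - 1) (k + 1) (by split_ifs <;> omega)]
            exact h1.symm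
          · rw [val (l + j - k) k (by split_ifs <;> omega),
              val (l + j - (k + 1)) (k + 1) (by split_ifs <;> omega)]
            have e : l + j - k = (l + j - (k + 1)) + 1 := by omega
            rw [e]
            exact (h.adj _ (by omega)).symm
  · have e1 : s (l - 1) = j + 1 := by
      simp only [hs]; split_ifs <;> omega
    have e2 : s 0 = i - 1 := by
      simp only [hs]; split_ifs <;> omega
    simp only [e1, e2]
    exact h2.symm

omit [Fintype V] [DecidableEq V] in
/-- Second rotation. -/
lemma rot2 {H : SimpleGraph V} {U : Finset V} {l : ℕ} {f : ℕ → V} (h : Pth H U l f)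
    {i j : ℕ} (hij : j < i) (hi : i + 1 < l)
    (h0 : H.Adj (f 0) (f i)) (h1 : H.Adj (f (l - 1)) (f j)) (h2 : H.Adj (f (j + 1)) (f (i + 1))) :
    ∃ g, Pth H U l g ∧ H.Adj (g (l - 1)) (g 0) := by
  set s : ℕ → ℕ := fun k => if k ≤ j then k else if k < j + l - i then l + j - k
    else k + 1 + i - l with hs
  refine ⟨fun k => f (s k), h.reindex s ?_ ?_ ?_, ?_⟩
  · intro k hk
    simp only [hs]
    split_ifs <;> omega
  · intro a ha b hb
    simp only [hs]
    split_ifs <;> omega
  · intro k hk
    have val : ∀ x y, (x = if y ≤ j then y else if y < j + l - i then l + j - y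
        else y + 1 + i - l) → s y = x := by
      intro x y h; rw [h]
    by_cases c1 : k + 1 ≤ j
    · rw [val k k (by split_ifs <;> omega), val (k + 1) (k + 1) (by split_ifs <;> omega)]
      exact h.adj _ (by omega)
    · by_cases c2 : k = j
      · rw [val j k (by split_ifs <;> omega), val (l - 1) (k + 1) (by split_ifs <;> omega)]
        exact h1.symm
      · by_cases c3 : k + 1 < j + l - i
        · rw [val (l + j - k) k (by split_ifs <;> omega),
            val (l + j - (k + 1)) (k + 1) (by split_ifs <;> omega)]
          have e : l + j - k = (l + j - (k + 1)) + 1 := by omega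
          rw [e]
          exact (h.adj _ (by omega)).symm
        · by_cases c4 : k + 1 = j + l - i
          · rw [val (i + 1) k (by split_ifs <;> omega), val (j + 1) (k + 1) (by split_ifs <;> omega)]
            exact h2.symm
          · rw [val (k + 1 + i - l) k (by split_ifs <;> omega),
              val ((k + 1 + i - l) + 1) (k + 1) (by split_ifs <;> omega)]
            exact h.adj _ (by omega)
  · have e1 : s (l - 1) = i := by
      simp only [hs]; split_ifs <;> omega
    have e2 : s 0 = 0 := by
      simp only [hs]; split_ifs <;> omega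
    simp only [e1, e2]
    exact h0.symm

omit [Fintype V] [DecidableEq V] in
/-- Rotating a cyclic enumeration so that it starts at a given index. -/
lemma rotate_cyc {H : SimpleGraph V} {U : Finset V} {l : ℕ} {f : ℕ → V} (h : Pth H U l f)
    (hc : H.Adj (f (l - 1)) (f 0)) {t : ℕ} (ht : t < l) :
    ∃ g, Pth H U l g ∧ g 0 = f t ∧ (∀ i < l, ∃ j < l, g i = f j) ∧ (∀ i < l, ∃ j < l, f i = g j) ∧
      H.Adj (g (l - 1)) (g 0) := by
  set s : ℕ → ℕ := fun k => if t + k < l then t + k else t + k - l with hs
  refine ⟨fun k => f (s k), h.reindex s ?_ ?_ ?_, ?_, ?_, ?_, ?_⟩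
  · intro k hk
    simp only [hs]
    split_ifs <;> omega
  · intro a ha b hb
    simp only [hs]
    split_ifs <;> omega
  · intro k hk
    simp only [hs]
    by_cases c1 : t + (k + 1) < l
    · rw [if_pos (by omega), if_pos c1]
      exact h.adj _ (by omega)
    · by_cases c2 : t + k < l
      · rw [if_pos c2, if_neg c1]
        have e1 : t + k = l - 1 := by omega
        have e2 : t + (k + 1) - l = 0 := by omega
        rw [e1, e2]
        exact hc
      · rw [if_neg c2, if_neg c1]
        have e2 : t + (k + 1) - l = (t + k - l) + 1 := by omega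
        rw [e2]
        exact h.adj _ (by omega)
  · simp only [hs]
    rw [if_pos (by omega)]
    rfl
  · intro i hi
    refine ⟨s i, ?_, rfl⟩
    simp only [hs]
    split_ifs <;> omega
  · intro i hi
    by_cases c : t ≤ i
    · refine ⟨i - t, by omega, ?_⟩
      simp only [hs]
      rw [if_pos (by omega)]
      congr 1; omega
    · refine ⟨i + l - t, by omega, ?_⟩
      simp only [hs]
      rw [if_neg (by omega)]
      congr 1; omega
  · simp only [hs]
    by_cases c : t = 0
    · subst c
      rw [if_pos (by omega), if_pos (by omega)]
      simpa using hc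
    · rw [if_neg (by omega), if_pos (by omega)]
      have e : t + 0 = (t + (l - 1) - l) + 1 := by omega
      rw [e]
      exact h.adj _ (by omega)

/-- The Hamiltonicity criterion. -/
theorem ham {H : SimpleGraph V} [DecidableRel H.Adj] {U : Finset V} {m : ℕ} (hm : 1 ≤ m)
    (hU : U.Nonempty)
    (hdeg : ∀ v ∈ U, 2 * m ≤ #(U.filter (H.Adj v)))
    (hhole : ∀ A B : Finset V, A ⊆ U → B ⊆ U → Disjoint A B → m ≤ #A → m ≤ #B →
      ∃ a ∈ A, ∃ b ∈ B, H.Adj a b) :
    ∃ f, Pth H U (#U) f ∧ H.Adj (f (#U - 1)) (f 0) ∧ ∀ v ∈ U, ∃ i < #U, f i = v := by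
  classical
  -- a longest path
  obtain ⟨u0, hu0⟩ := hU
  have hne : {l | ∃ f, Pth H U l f}.Nonempty :=
    ⟨1, fun _ => u0, ⟨fun _ _ => hu0, fun i hi j hj _ => by omega, fun i hi => by omega⟩⟩
  have hbd : BddAbove {l | ∃ f, Pth H U l f} := ⟨#U, by rintro l ⟨f, hf⟩; exact hf.length_le⟩
  obtain ⟨f, hf⟩ := Nat.sSup_mem hne hbd
  set l := sSup {l | ∃ f, Pth H U l f} with hl
  have hmax : ∀ l' g, Pth H U l' g → l' ≤ l := fun l' g hg => le_csSup hbd ⟨g, hg⟩
  have hl1 : 1 ≤ l := hmax 1 (fun _ => u0)
    ⟨fun _ _ => hu0, fun i hi j hj _ => by omega, fun i hi => by omega⟩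
  -- neighbours of the first vertex are on the path
  have hfirst : ∀ u ∈ U, H.Adj (f 0) u → ∃ i < l, f i = u := by
    intro u hu ha
    by_contra hcon
    push Not at hcon
    have hp : Pth H U (l + 1) (fun k => if k = 0 then u else f (k - 1)) := by
      refine ⟨?_, ?_, ?_⟩
      · intro i hi
        split_ifs
        · exact hu
        · exact hf.mem _ (by omega)
      · intro i hi j hj
        split_ifs with a b b
        · intro _; omega
        · intro hh; exact absurd hh.symm (hcon _ (by omega))
        · intro hh; exact absurd hh (hcon _ (by omega))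
        · intro hh
          have := hf.inj _ (by omega) _ (by omega) hh
          omega
      · intro i hi
        by_cases a : i = 0
        · subst a
          simpa using ha.symm
        · rw [if_neg a, if_neg (by omega)]
          have e : i + 1 - 1 = (i - 1) + 1 := by omega
          rw [e]
          exact hf.adj _ (by omega)
    have := hmax _ _ hp
    omega
  have hlast : ∀ u ∈ U, H.Adj (f (l - 1)) u → ∃ i < l, f i = u := by
    intro u hu ha
    by_contra hcon
    push Not at hcon
    have hp : Pth H U (l + 1) (fun k => if k = l then u else f k) := by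
      refine ⟨?_, ?_, ?_⟩
      · intro i hi
        split_ifs
        · exact hu
        · exact hf.mem _ (by omega)
      · intro i hi j hj
        split_ifs with a b b
        · intro _; omega
        · intro hh; exact absurd hh.symm (hcon _ (by omega))
        · intro hh; exact absurd hh (hcon _ (by omega))
        · intro hh
          exact hf.inj _ (by omega) _ (by omega) hh
      · intro i hi
        by_cases a : i + 1 = l
        · rw [if_neg (by omega), if_pos a]
          have e : i = l - 1 := by omega
          rw [e]
          exact ha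
        · rw [if_neg (by omega), if_neg a]
          exact hf.adj _ (by omega)
    have := hmax _ _ hp
    omega
  -- index sets
  set X := (range l).filter (fun i => H.Adj (f 0) (f i)) with hX
  set Y := (range l).filter (fun i => H.Adj (f (l - 1)) (f i)) with hY
  have hXc : 2 * m ≤ #X := by
    refine (hdeg (f 0) (hf.mem 0 (by omega))).trans ?_
    refine Finset.card_le_card_of_surjOn f ?_
    intro u hu
    simp only [coe_filter, Set.mem_ofPred_eq] at hu
    obtain ⟨i, hi, rfl⟩ := hfirst u hu.1 hu.2
    exact ⟨i, by simp [hX, hi, hu.2], rfl⟩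
  have hYc : 2 * m ≤ #Y := by
    refine (hdeg (f (l - 1)) (hf.mem (l - 1) (by omega))).trans ?_
    refine Finset.card_le_card_of_surjOn f ?_
    intro u hu
    simp only [coe_filter, Set.mem_ofPred_eq] at hu
    obtain ⟨i, hi, rfl⟩ := hlast u hu.1 hu.2
    exact ⟨i, by simp [hY, hi, hu.2], rfl⟩
  have hX0 : ∀ i ∈ X, 1 ≤ i ∧ i < l := by
    intro i hi
    simp only [hX, mem_filter, mem_range] at hi
    refine ⟨?_, hi.1⟩
    rcases Nat.eq_zero_or_pos i with h | h
    · subst h; exact absurd hi.2 (H.irrefl)
    · exact h
  have hY0 : ∀ i ∈ Y, i + 1 < l := by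
    intro i hi
    simp only [hY, mem_filter, mem_range] at hi
    by_contra hcon
    have : i = l - 1 := by omega
    rw [this] at hi
    exact absurd hi.2 (H.irrefl)
  -- the cyclic arrangement
  have hcyc : ∃ g, Pth H U l g ∧ H.Adj (g (l - 1)) (g 0) := by
    by_cases hclose : H.Adj (f 0) (f (l - 1))
    · exact ⟨f, hf, hclose.symm⟩
    -- threshold
    have hex : ∃ t, m ≤ #(X.filter (· ≤ t)) := by
      refine ⟨l, ?_⟩
      rw [Finset.filter_true_of_mem (fun i hi => (hX0 i hi).2.le)]
      omega
    set t := Nat.find hex with ht
    have ht1 : m ≤ #(X.filter (· ≤ t)) := Nat.find_spec hex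
    have ht2 : #(X.filter (· ≤ t)) ≤ m := by
      rcases Nat.eq_zero_or_pos t with h | h
      · have : X.filter (· ≤ t) = ∅ := by
          apply Finset.filter_false_of_mem
          intro i hi
          have := (hX0 i hi).1
          omega
        rw [this]; simp
      · have h3 : ¬ m ≤ #(X.filter (· ≤ t - 1)) := Nat.find_min hex (by omega)
        have h4 : X.filter (· ≤ t) ⊆ insert t (X.filter (· ≤ t - 1)) := by
          intro i hi
          simp only [mem_filter, mem_insert] at hi ⊢
          by_cases c : i = t
          · exact Or.inl c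
          · exact Or.inr ⟨hi.1, by omega⟩
        have h5 := (card_le_card h4).trans (card_insert_le _ _)
        omega
    have ht3 : m ≤ #(X.filter (fun i => t < i)) := by
      have h6 := Finset.card_filter_add_card_filter_not (s := X) (fun i => i ≤ t)
      have h7 : X.filter (fun i => ¬ i ≤ t) = X.filter (fun i => t < i) := by
        apply Finset.filter_congr; intro i _; simp
      rw [h7] at h6
      omega
    have hYsplit : m ≤ #(Y.filter (· ≤ t)) ∨ m ≤ #(Y.filter (fun i => t < i)) := by
      have h6 := Finset.card_filter_add_card_filter_not (s := Y) (fun i => i ≤ t)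
      have h7 : Y.filter (fun i => ¬ i ≤ t) = Y.filter (fun i => t < i) := by
        apply Finset.filter_congr; intro i _; simp
      rw [h7] at h6
      omega
    rcases hYsplit with hYs | hYs
    · -- second rotation
      have hA : m ≤ #((Y.filter (· ≤ t)).image (fun j => f (j + 1))) := by
        rw [card_image_of_injOn]
        · exact hYs
        · intro a ha b hb hab
          simp only [coe_filter, Set.mem_ofPred_eq] at ha hb
          have := hf.inj _ (hY0 a ha.1) _ (hY0 b hb.1) hab
          omega
      have hXl : ∀ i ∈ X, i + 1 < l := by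
        intro i hi
        have h1 := hX0 i hi
        by_contra hcon
        have h2 : i = l - 1 := by omega
        simp only [hX, mem_filter] at hi
        rw [h2] at hi
        exact hclose hi.2
      have hB : m ≤ #((X.filter (fun i => t < i)).image (fun i => f (i + 1))) := by
        rw [card_image_of_injOn]
        · exact ht3
        · intro a ha b hb hab
          simp only [coe_filter, Set.mem_ofPred_eq] at ha hb
          have := hf.inj _ (hXl a ha.1) _ (hXl b hb.1) hab
          omega
      obtain ⟨a, ha, b, hb, hab⟩ := hhole _ _ (by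
        intro u hu
        simp only [mem_image, mem_filter] at hu
        obtain ⟨i, hi, rfl⟩ := hu
        exact hf.mem _ (hY0 i hi.1)) (by
        intro u hu
        simp only [mem_image, mem_filter] at hu
        obtain ⟨i, hi, rfl⟩ := hu
        exact hf.mem _ (hXl i hi.1)) (by
        rw [Finset.disjoint_left]
        intro u hu hu'
        simp only [mem_image, mem_filter] at hu hu'
        obtain ⟨i, hi, rfl⟩ := hu
        obtain ⟨j, hj, hj2⟩ := hu'
        have := hf.inj _ (hXl j hj.1) _ (hY0 i hi.1) hj2
        omega) hA hB
      simp only [mem_image, mem_filter] at ha hb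
      obtain ⟨j, hj, rfl⟩ := ha
      obtain ⟨i, hi, rfl⟩ := hb
      have hi2 := hXl i hi.1
      simp only [hX, hY, mem_filter] at hi hj
      exact rot2 hf (by omega) hi2 hi.1.2 hj.1.2 hab
    · have hA : m ≤ #((X.filter (· ≤ t)).image (fun j => f (j - 1))) := by
        rw [card_image_of_injOn]
        · exact ht1
        · intro a ha b hb hab
          simp only [coe_filter, Set.mem_ofPred_eq] at ha hb
          have h1 := hX0 a ha.1
          have h2 := hX0 b hb.1
          have := hf.inj _ (by omega) _ (by omega) hab
          omega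
      have hB : m ≤ #((Y.filter (fun i => t < i)).image (fun i => f (i + 1))) := by
        rw [card_image_of_injOn]
        · exact hYs
        · intro a ha b hb hab
          simp only [coe_filter, Set.mem_ofPred_eq] at ha hb
          have := hf.inj _ (hY0 a ha.1) _ (hY0 b hb.1) hab
          omega
      obtain ⟨a, ha, b, hb, hab⟩ := hhole _ _ (by
        intro u hu
        simp only [mem_image, mem_filter] at hu
        obtain ⟨i, hi, rfl⟩ := hu
        have := hX0 i hi.1
        exact hf.mem _ (by omega)) (by
        intro u hu
        simp only [mem_image, mem_filter] at hu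
        obtain ⟨i, hi, rfl⟩ := hu
        exact hf.mem _ (hY0 i hi.1)) (by
        rw [Finset.disjoint_left]
        intro u hu hu'
        simp only [mem_image, mem_filter] at hu hu'
        obtain ⟨i, hi, rfl⟩ := hu
        obtain ⟨j, hj, hj2⟩ := hu'
        have h1 := hX0 i hi.1
        have := hf.inj _ (hY0 j hj.1) _ (by omega) hj2
        omega) hA hB
      simp only [mem_image, mem_filter] at ha hb
      obtain ⟨i, hi, rfl⟩ := ha
      obtain ⟨j, hj, rfl⟩ := hb
      have hi2 := hX0 i hi.1
      have hj2 := hY0 j hj.1
      simp only [hX, hY, mem_filter] at hi hj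
      exact rot1 hf hi2.1 (by omega) hj2 hi.1.2 hj.1.2 hab
  obtain ⟨g, hg, hgc⟩ := hcyc
  -- the cycle covers everything
  have hcov : ∀ v ∈ U, ∃ i < l, g i = v := by
    by_contra hcon
    push Not at hcon
    obtain ⟨v0, hv0, hv0'⟩ := hcon
    set Q := (range l).image g with hQ
    have hQU : Q ⊆ U := by
      intro u hu
      simp only [hQ, mem_image, mem_range] at hu
      obtain ⟨i, hi, rfl⟩ := hu
      exact hg.mem i hi
    have hQc : #Q = l := by
      rw [hQ, card_image_of_injOn, card_range]
      intro a ha b hb hab
      exact hg.inj a (by simpa using ha) b (by simpa using hb) hab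
    have hlm : 2 * m ≤ l := by
      refine hXc.trans ?_
      refine (card_filter_le _ _).trans ?_
      simp
    -- an outside vertex adjacent to the cycle
    have hout : ∃ u ∈ U, u ∉ Q ∧ ∃ w ∈ Q, H.Adj u w := by
      by_cases hsm : m ≤ #(U \ Q)
      · obtain ⟨a, ha, b, hb, hab⟩ := hhole (U \ Q) Q sdiff_subset hQU sdiff_disjoint hsm (by omega)
        rw [mem_sdiff] at ha
        exact ⟨a, ha.1, ha.2, b, hb, hab⟩
      · have hd := hdeg v0 hv0
        have hv0Q : v0 ∉ Q := by
          simp only [hQ, mem_image, mem_range, not_exists, not_and]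
          exact hv0'
        by_contra hno
        push Not at hno
        have hsub : U.filter (H.Adj v0) ⊆ U \ Q := by
          intro w hw
          rw [mem_filter] at hw
          rw [mem_sdiff]
          exact ⟨hw.1, fun hwQ => hno v0 hv0 hv0Q w hwQ hw.2⟩
        have := card_le_card hsub
        omega
    obtain ⟨u, huU, huQ, w, hw, huw⟩ := hout
    simp only [hQ, mem_image, mem_range] at hw
    obtain ⟨t, ht, rfl⟩ := hw
    obtain ⟨g', hg', hg0, hgg, _, _⟩ := rotate_cyc hg hgc ht
    have hp : Pth H U (l + 1) (fun k => if k = 0 then u else g' (k - 1)) := by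
      have hcon : ∀ i < l, g' i ≠ u := by
        intro i hi hh
        obtain ⟨j, hj, hj2⟩ := hgg i hi
        apply huQ
        simp only [hQ, mem_image, mem_range]
        exact ⟨j, hj, hj2.symm.trans hh⟩
      refine ⟨?_, ?_, ?_⟩
      · intro i hi
        split_ifs
        · exact huU
        · exact hg'.mem _ (by omega)
      · intro i hi j hj
        split_ifs with a b b
        · intro _; omega
        · intro hh; exact absurd hh.symm (hcon _ (by omega))
        · intro hh; exact absurd hh (hcon _ (by omega))
        · intro hh
          have := hg'.inj _ (by omega) _ (by omega) hh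
          omega
      · intro i hi
        by_cases a : i = 0
        · subst a
          simp only [if_true, zero_add, Nat.one_ne_zero, if_false, Nat.sub_self]
          rw [hg0]
          exact huw
        · rw [if_neg a, if_neg (by omega)]
          have e : i + 1 - 1 = (i - 1) + 1 := by omega
          rw [e]
          exact hg'.adj _ (by omega)
    have := hmax _ _ hp
    omega
  have hlU : l = #U := by
    apply le_antisymm hf.length_le
    have : U ⊆ (range l).image g := by
      intro v hv
      obtain ⟨i, hi, rfl⟩ := hcov v hv
      exact mem_image_of_mem g (by simpa using hi)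
    exact (card_le_card this).trans (card_image_le.trans (by simp))
  rw [← hlU]
  exact ⟨g, hg, hgc, hcov⟩

end Pool.Agent.V11328.E6
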