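import Pool.Agent.V11328.E6.Prob

/-! Limit lemmas. -/

open MeasureTheory ProbabilityTheory unitInterval Finset Filter Topology
open scoped SimpleGraph

namespace Pool.Agent.V11328.E6

open Pool.Agent.V11328

lemma tendsto_one {p : ℕ → I} {E B : ∀ n, Set (SimpleGraph (Fin n))} {b : ℕ → ℝ}
    (hsub : ∀ᶠ n in atTop, ∀ G, G ∉ B n → G ∈ E n)
    (hB : ∀ᶠ n in atTop, (G(Fin n, p n)).real (B n) ≤ b n) (hb : Tendsto b atTop (𝓝 0)) :
    Tendsto (fun n => (G(Fin n, p n)) (E n)) atTop (𝓝 1) := by
  have h1 : Tendsto (fun n => (G(Fin n, p n)).real (E n)) atTop (𝓝 1) := by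
    have hlow : Tendsto (fun n => 1 - b n) atTop (𝓝 1) := by
      have := (tendsto_const_nhds (x := (1 : ℝ))).sub hb
      simpa using this
    refine tendsto_of_tendsto_of_tendsto_of_le_of_le' hlow tendsto_const_nhds ?_ ?_
    · filter_upwards [hsub, hB] with n hn hn2
      have hm : MeasurableSet (E n) := Set.Finite.measurableSet (Set.toFinite _)
      have h3 : (G(Fin n, p n)).real (E n)ᶜ = 1 - (G(Fin n, p n)).real (E n) := by
        rw [probReal_compl_eq_one_sub hm]
      have h4 : (G(Fin n, p n)).real (E n)ᶜ ≤ (G(Fin n, p n)).real (B n) := by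
        refine measureReal_mono ?_ (measure_ne_top _ _)
        intro G hG
        by_contra hc
        exact hG (hn G hc)
      linarith
    · exact Eventually.of_forall fun n => measureReal_le_one
  have h2 := ENNReal.tendsto_ofReal h1
  simp only [ENNReal.ofReal_one] at h2
  refine h2.congr fun n => ?_
  rw [ofReal_measureReal]

/-- Degree bound used in both parts. -/
lemma deg_bound {c : ℝ} (hc : 0 < c) {p : ℕ → I}
    (hp : Tendsto (fun n : ℕ => (n : ℝ) * p n / Real.log n) atTop atTop) :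
    ∀ᶠ n : ℕ in atTop, 2 * (Fintype.card (Fin n) : ℝ) *
      Real.exp (-(c * ((p n : ℝ) * (Fintype.card (Fin n) - 1 : ℕ)))) ≤ 2 / n := by
  filter_upwards [hp.eventually_ge_atTop (4 / c), eventually_ge_atTop 3] with n h1 h2
  have hn : (3 : ℝ) ≤ n := by exact_mod_cast h2
  have hlog : 0 < Real.log n := Real.log_pos (by linarith)
  rw [le_div_iff₀ hlog] at h1
  rw [Fintype.card_fin]
  have h3 : ((n - 1 : ℕ) : ℝ) = n - 1 := by
    rw [Nat.cast_sub (by omega)]; simp
  rw [h3]
  have hp0 : 0 ≤ (p n : ℝ) := (p n).2.1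
  have h4 : 2 * Real.log n ≤ c * ((p n : ℝ) * (n - 1)) := by
    have h5 : (n : ℝ) * p n / 2 ≤ (p n : ℝ) * (n - 1) := by nlinarith
    have h6 : 4 / c * Real.log n / 2 ≤ (p n : ℝ) * (n - 1) := by linarith
    have h7 := mul_le_mul_of_nonneg_left h6 hc.le
    have h8 : c * (4 / c * Real.log n / 2) = 2 * Real.log n := by
      field_simp
      ring
    linarith
  have h9 : Real.exp (-(c * ((p n : ℝ) * (n - 1)))) ≤ 1 / (n : ℝ) ^ 2 := by
    have h10 : Real.exp (-(2 * Real.log n)) = 1 / (n : ℝ) ^ 2 := by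
      rw [Real.exp_neg, mul_comm, Real.exp_mul, Real.exp_log (by linarith)]
      simp
    rw [← h10]
    exact Real.exp_le_exp.2 (by linarith)
  have h11 : 2 * (n : ℝ) * (1 / (n : ℝ) ^ 2) = 2 / n := by
    field_simp
  rw [← h11]
  exact mul_le_mul_of_nonneg_left h9 (by positivity)

lemma tendsto_two_div : Tendsto (fun n : ℕ => (2 : ℝ) / n) atTop (𝓝 0) :=
  tendsto_const_div_atTop_nhds_zero_nat 2

open Classical in
lemma degree_eq {V : Type*} [Fintype V] (G : SimpleGraph V) (v : V) : G.degree v = #(nb G v) := by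
  rw [← SimpleGraph.card_neighborFinset_eq_degree]
  congr 1
  ext u
  simp [nb]

open Classical in
/-- Consequences of degree concentration. -/
lemma deg_facts {n k : ℕ} (hk : 2 ≤ k) {q : ℝ} (hn : 0 < n) (hq : 4 * (k : ℝ) < q)
    {G : SimpleGraph (Fin n)}
    (hl : ∀ v, (1 - 1 / (4 * k : ℝ)) * q ≤ #(nb G v))
    (hu : ∀ v, (#(nb G v) : ℝ) ≤ (1 + 1 / (4 * k : ℝ)) * q) :
    (k - 1) * G.maxDegree < k * (G.minDegree - 1) := by
  have : Nonempty (Fin n) := ⟨⟨0, hn⟩⟩
  obtain ⟨u, hu'⟩ := G.exists_maximal_degree_vertex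
  obtain ⟨w, hw'⟩ := G.exists_minimal_degree_vertex
  rw [hu', hw', degree_eq, degree_eq]
  have h1 := hu u
  have h2 := hl w
  have hkR : (2 : ℝ) ≤ k := by exact_mod_cast hk
  have hη1 : 1 / (4 * (k : ℝ)) ≤ 1 / 8 := by
    apply one_div_le_one_div_of_le <;> linarith
  have hw1 : 1 ≤ #(nb G w) := by
    have : (1 : ℝ) ≤ #(nb G w) := by nlinarith
    exact_mod_cast this
  have h3 : (((k - 1) * #(nb G u) : ℕ) : ℝ) < ((k * (#(nb G w) - 1) : ℕ) : ℝ) := by
    rw [Nat.cast_mul, Nat.cast_mul, Nat.cast_sub (by omega), Nat.cast_sub hw1]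
    simp only [Nat.cast_one]
    have e1 : (k : ℝ) * (1 / (4 * k : ℝ)) = 1 / 4 := by field_simp
    have e2 : k * ((1 - 1 / (4 * k : ℝ)) * q) = k * q - (k * (1 / (4 * k : ℝ))) * q := by ring
    have e3 : ((k : ℝ) - 1) * ((1 + 1 / (4 * k : ℝ)) * q) =
        (k - 1) * q + (k * (1 / (4 * k : ℝ))) * q - 1 / (4 * k : ℝ) * q := by ring
    have hq0 : 0 ≤ q := by linarith
    have e4 : 0 ≤ 1 / (4 * k : ℝ) * q := by positivity
    have e5 : ((k : ℝ) - 1) * #(nb G u) ≤ ((k : ℝ) - 1) * ((1 + 1 / (4 * k : ℝ)) * q) :=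
      mul_le_mul_of_nonneg_left h1 (by linarith)
    have e6 : (k : ℝ) * ((1 - 1 / (4 * k : ℝ)) * q) ≤ k * #(nb G w) :=
      mul_le_mul_of_nonneg_left h2 (by linarith)
    rw [e2, e1] at e6
    rw [e3, e1] at e5
    nlinarith
  exact_mod_cast h3

/-- The quantity `(n-1) p` tends to infinity. -/
lemma q_large {p : ℕ → I} (K : ℝ)
    (hp : Tendsto (fun n : ℕ => (n : ℝ) * p n / Real.log n) atTop atTop) :
    ∀ᶠ n : ℕ in atTop, K < (p n : ℝ) * (Fintype.card (Fin n) - 1 : ℕ) := by
  filter_upwards [hp.eventually_ge_atTop (2 * |K| + 2), eventually_ge_atTop 3] with n h1 h2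
  have hn : (3 : ℝ) ≤ n := by exact_mod_cast h2
  have hlog : 1 ≤ Real.log n := by
    rw [Real.le_log_iff_exp_le (by linarith)]
    have := Real.exp_one_lt_d9
    linarith
  rw [le_div_iff₀ (by linarith)] at h1
  rw [Fintype.card_fin]
  have h3 : ((n - 1 : ℕ) : ℝ) = n - 1 := by
    rw [Nat.cast_sub (by omega)]; simp
  rw [h3]
  have hp0 : 0 ≤ (p n : ℝ) := (p n).2.1
  have h5 : (n : ℝ) * p n / 2 ≤ (p n : ℝ) * (n - 1) := by nlinarith
  have h6 : 2 * |K| + 2 ≤ (2 * |K| + 2) * Real.log n := by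
    have : 0 ≤ |K| := abs_nonneg K
    nlinarith
  have h7 := le_abs_self K
  linarith

/-- Generating function bound for the probability of a degree at most two. -/
lemma low_degree {n : ℕ} (hn : 2 ≤ n) (p : I) (hp : 1 ≤ (n : ℝ) * p) :
    (G(Fin n, p)).real {G : SimpleGraph (Fin n) | ∃ v, #(nb G v) ≤ 2} ≤
      Real.exp 2 * Real.exp (Real.log n + 2 * Real.log (n * p) - n * p) := by
  classical
  set x : ℝ := (n : ℝ) * p with hx
  have hnR : (2 : ℝ) ≤ n := by exact_mod_cast hn
  have hxpos : 0 < x := by linarith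
  have hsub : {G : SimpleGraph (Fin n) | ∃ v, #(nb G v) ≤ 2} ⊆ ⋃ v ∈ (univ : Finset (Fin n)),
      {G | #(nb G v) ≤ 2} := by
    rintro G ⟨v, hv⟩
    simp only [Set.mem_iUnion]
    exact ⟨v, mem_univ v, hv⟩
  refine (measureReal_mono hsub (measure_ne_top _ _)).trans ?_
  refine (measureReal_biUnion_finset_le _ _).trans ?_
  have hone : ∀ v ∈ (univ : Finset (Fin n)), (G(Fin n, p)).real {G | #(nb G v) ≤ 2} ≤
      x ^ 2 * Real.exp (2 - x) := by
    intro v _
    rw [real_event]
    have h1 : ∀ G ∈ univ.filter (fun G : SimpleGraph (Fin n) => G ∈ {G | #(nb G v) ≤ 2}),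
        gw (p : ℝ) G ≤ gw (p : ℝ) G * (x ^ 2 * ∏ e ∈ ed G, (if e ∈ star v then 1 / x else 1)) := by
      intro G hG
      have hG' : #(nb G v) ≤ 2 := by simpa using hG
      have h2 : ∏ e ∈ ed G, (if e ∈ star v then 1 / x else 1) = (1 / x) ^ #(nb G v) := by
        rw [Finset.prod_ite, Finset.prod_const, Finset.prod_const_one, mul_one,
          Finset.filter_mem_eq_inter, Finset.inter_comm, star_inter]
      rw [h2]
      have h3 : 1 ≤ x ^ 2 * (1 / x) ^ #(nb G v) := by
        have h4 : (1 / x) ^ 2 ≤ (1 / x) ^ #(nb G v) := by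
          apply pow_le_pow_of_le_one (by positivity) _ hG'
          rw [div_le_one hxpos]; exact hp
        have h5 : x ^ 2 * (1 / x) ^ 2 = 1 := by field_simp
        calc (1 : ℝ) = x ^ 2 * (1 / x) ^ 2 := h5.symm
          _ ≤ x ^ 2 * (1 / x) ^ #(nb G v) := mul_le_mul_of_nonneg_left h4 (by positivity)
      exact le_mul_of_one_le_right (gw_nonneg p.2.1 p.2.2 G) h3
    refine (Finset.sum_le_sum h1).trans ?_
    refine (Finset.sum_le_sum_of_subset_of_nonneg (Finset.filter_subset _ _)
      fun G _ _ => ?_).trans ?_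
    · refine mul_nonneg (gw_nonneg p.2.1 p.2.2 G) (mul_nonneg (by positivity) ?_)
      exact Finset.prod_nonneg fun e _ => by split_ifs <;> positivity
    · have h6 : ∑ G : SimpleGraph (Fin n), gw (p : ℝ) G *
          (x ^ 2 * ∏ e ∈ ed G, (if e ∈ star v then 1 / x else 1)) =
          x ^ 2 * ∏ e ∈ allE (Fin n), ((p : ℝ) * (if e ∈ star v then 1 / x else 1) + (1 - p)) := by
        rw [← sum_prod, Finset.mul_sum]
        exact Finset.sum_congr rfl fun G _ => by ring
      rw [h6]
      refine mul_le_mul_of_nonneg_left ?_ (by positivity)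
      have h7 : ∏ e ∈ allE (Fin n), ((p : ℝ) * (if e ∈ star v then 1 / x else 1) + (1 - p)) =
          ((p : ℝ) * (1 / x) + (1 - p)) ^ (n - 1) := by
        have h8 : ∀ e ∈ allE (Fin n), ((p : ℝ) * (if e ∈ star v then 1 / x else 1) + (1 - p)) =
            if e ∈ star v then ((p : ℝ) * (1 / x) + (1 - p)) else 1 := by
          intro e _
          split_ifs
          · rfl
          · ring
        rw [Finset.prod_congr rfl h8, Finset.prod_ite, Finset.prod_const, Finset.prod_const_one,
          mul_one, Finset.filter_mem_eq_inter, Finset.inter_eq_right.2 (star_subset v), star_card,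
          Fintype.card_fin]
      rw [h7]
      have hp0 : 0 ≤ (p : ℝ) := p.2.1
      have hp1 : (p : ℝ) ≤ 1 := p.2.2
      have h9 : (p : ℝ) * (1 / x) + (1 - p) ≤ Real.exp ((p : ℝ) * (1 / x) - p) := by
        have := Real.add_one_le_exp ((p : ℝ) * (1 / x) - p)
        linarith
      have h10 : 0 ≤ (p : ℝ) * (1 / x) + (1 - p) := by
        have : 0 ≤ (p : ℝ) * (1 / x) := by positivity
        linarith
      refine (pow_le_pow_left₀ h10 h9 _).trans ?_
      rw [← Real.exp_nat_mul]
      refine Real.exp_le_exp.2 ?_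
      have h11 : ((n - 1 : ℕ) : ℝ) = n - 1 := by
        rw [Nat.cast_sub (by omega)]; simp
      rw [h11]
      have h12 : (n : ℝ) * ((p : ℝ) * (1 / x)) = 1 := by
        rw [← mul_assoc, ← hx]
        exact mul_one_div_cancel hxpos.ne'
      have h13 : 0 ≤ (p : ℝ) * (1 / x) := by positivity
      nlinarith
  refine (Finset.sum_le_sum hone).trans (le_of_eq ?_)
  rw [Finset.sum_const, card_univ, Fintype.card_fin, nsmul_eq_mul]
  rw [Real.exp_sub, Real.exp_sub, Real.exp_add, Real.exp_log (by linarith)]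
  have : Real.exp (2 * Real.log x) = x ^ 2 := by
    rw [mul_comm, Real.exp_mul, Real.exp_log hxpos]
    simp
  rw [this]
  ring

lemma low_degree_tendsto {p : ℕ → I}
    (hp : Tendsto (fun n : ℕ => (n : ℝ) * p n - Real.log n - 2 * Real.log (Real.log n))
      atTop atTop) :
    Tendsto (fun n : ℕ => Real.exp 2 *
      Real.exp (Real.log n + 2 * Real.log (n * p n) - n * p n)) atTop (𝓝 0) := by
  have hmain : Tendsto (fun n : ℕ => Real.log n + 2 * Real.log (n * p n) - n * p n)
      atTop atBot := by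
    have hlogn : Tendsto (fun n : ℕ => Real.log (n : ℝ)) atTop atTop :=
      Real.tendsto_log_atTop.comp tendsto_natCast_atTop_atTop
    rw [tendsto_atBot]
    intro M
    filter_upwards [hp.eventually_ge_atTop (-M + 2 * Real.log 4),
      hlogn.eventually_ge_atTop 1, hlogn.eventually_ge_atTop ((4 - M) / 2)] with n h1 h2 h3
    set L := Real.log (n : ℝ) with hL
    set x : ℝ := (n : ℝ) * p n with hx
    by_cases hx0 : x ≤ 0
    · have : 0 ≤ Real.log L := Real.log_nonneg h2
      have hx00 : x = 0 := le_antisymm hx0 (mul_nonneg (Nat.cast_nonneg n) (p n).2.1)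
      rw [hx00] at h1 ⊢
      have h4 : (0 : ℝ) < Real.log 4 := Real.log_pos (by norm_num)
      rw [Real.log_zero]
      have h5 : L ≤ M := by linarith
      linarith
    · push Not at hx0
      by_cases hc : x ≤ 4 * L
      · have h4 : Real.log x ≤ Real.log 4 + Real.log L := by
          rw [← Real.log_mul (by norm_num) (by linarith)]
          exact Real.log_le_log hx0 hc
        linarith
      · push Not at hc
        have h5 : Real.log x ≤ x / 8 + 2 := by
          have h6 : Real.log (x / 8) ≤ x / 8 - 1 := Real.log_le_sub_one_of_pos (by positivity)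
          rw [Real.log_div hx0.ne' (by norm_num)] at h6
          have h7 : Real.log 8 ≤ 3 := by
            rw [Real.log_le_iff_le_exp (by norm_num)]
            have h8 := Real.exp_one_gt_d9
            have h9 : Real.exp 3 = Real.exp 1 * Real.exp 1 * Real.exp 1 := by
              rw [← Real.exp_add, ← Real.exp_add]; norm_num
            rw [h9]
            nlinarith
          linarith
        linarith
  have := (Real.tendsto_exp_atBot.comp hmain).const_mul (Real.exp 2)
  simpa using this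

lemma touching_single {V : Type*} [Fintype V] (G : SimpleGraph V) (v : V) :
    #(touching G {v}) ≤ #(nb G v) := by
  classical
  have h1 : touching G {v} ⊆ (nb G v).image (fun u => s(v, u)) := by
    intro e he
    simp only [touching, mem_filter, mem_univ, true_and, mem_singleton] at he
    obtain ⟨he, w, rfl, hve⟩ := he
    obtain ⟨u, rfl⟩ := Sym2.mem_iff_exists.1 hve
    rw [mem_image]
    exact ⟨u, by simpa [nb] using he, rfl⟩
  exact (card_le_card h1).trans card_image_le

end Pool.Agent.V11328.E6
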