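import Pool.Agent.V11328.Gnp
import Pool.Agent.V11328.E6.Det

/-! Probabilistic part. -/

open MeasureTheory ProbabilityTheory unitInterval Finset Filter Topology
open scoped SimpleGraph

namespace Pool.Agent.V11328.E6

open Pool.Agent.V11328

section finite

variable {V : Type*} [Fintype V] [DecidableEq V]

/-- All pairs containing `v`. -/
noncomputable def star (v : V) : Finset (Sym2 V) := (univ.erase v).image (fun u => s(v, u))

lemma star_subset (v : V) : star v ⊆ allE V := by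
  intro e he
  simp only [star, mem_image, mem_erase, mem_univ, and_true] at he
  obtain ⟨u, hu, rfl⟩ := he
  rw [mem_allE, Sym2.mk_isDiag_iff]
  exact fun h => hu h.symm

lemma star_card (v : V) : #(star v) = Fintype.card V - 1 := by
  rw [star, card_image_of_injective, card_erase_of_mem (mem_univ v), card_univ]
  intro a b hab
  exact Sym2.congr_right.1 hab

lemma star_inter (G : SimpleGraph V) (v : V) : #(star v ∩ ed G) = #(nb G v) := by
  classical
  have : star v ∩ ed G = (nb G v).image (fun u => s(v, u)) := by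
    ext e
    simp only [star, mem_inter, mem_image, mem_erase, mem_univ, and_true, mem_ed, nb, mem_filter,
      true_and]
    constructor
    · rintro ⟨⟨u, hu, rfl⟩, h⟩
      exact ⟨u, h, rfl⟩
    · rintro ⟨u, hu, rfl⟩
      exact ⟨⟨u, hu.ne', rfl⟩, hu⟩
  rw [this, card_image_of_injective]
  intro a b hab
  exact Sym2.congr_right.1 hab

/-- All pairs between `A` and `B`. -/
noncomputable def prs (A B : Finset V) : Finset (Sym2 V) := (A ×ˢ B).image (fun q => s(q.1, q.2))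

lemma prs_subset {A B : Finset V} (h : Disjoint A B) : prs A B ⊆ allE V := by
  intro e he
  simp only [prs, mem_image, mem_product] at he
  obtain ⟨⟨x, y⟩, ⟨hx, hy⟩, rfl⟩ := he
  rw [mem_allE, Sym2.mk_isDiag_iff]
  intro hxy
  have hxy' : x = y := hxy
  subst hxy'
  exact Finset.disjoint_left.1 h hx hy

omit [Fintype V] in
lemma prs_card {A B : Finset V} (h : Disjoint A B) : #(prs A B) = #A * #B := by
  rw [prs, card_image_of_injOn, card_product]
  rintro ⟨x, y⟩ hxy ⟨x', y'⟩ hxy' he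
  simp only [coe_product, Set.mem_prod, mem_coe] at hxy hxy'
  simp only [Sym2.eq_iff] at he
  rcases he with ⟨rfl, rfl⟩ | ⟨rfl, rfl⟩
  · rfl
  · exact absurd hxy'.2 (Finset.disjoint_left.1 h hxy.1)

lemma prs_inter (G : SimpleGraph V) (A B : Finset V) : prs A B ∩ ed G = between G A B := by
  classical
  ext e
  simp only [prs, mem_inter, mem_image, mem_product, mem_ed, between, mem_filter, mem_univ,
    true_and, Prod.exists]
  constructor
  · rintro ⟨⟨x, y, ⟨hx, hy⟩, rfl⟩, h⟩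
    exact ⟨h, x, hx, y, hy, rfl⟩
  · rintro ⟨h, x, hx, y, hy, rfl⟩
    exact ⟨⟨x, y, ⟨hx, hy⟩, rfl⟩, h⟩

/-- Some degree deviates from its mean. -/
def badDeg (p : ℝ) (η : ℝ) : Set (SimpleGraph V) :=
  {G | ∃ v, (#(nb G v) : ℝ) ≤ (1 - η) * (p * (Fintype.card V - 1 : ℕ)) ∨
    (1 + η) * (p * (Fintype.card V - 1 : ℕ)) ≤ #(nb G v)}

lemma badDeg_le (p : I) {η : ℝ} (h0 : 0 ≤ η) (h1 : η ≤ 1) :
    (G(V, p)).real (badDeg (V := V) (p : ℝ) η) ≤
      2 * Fintype.card V * Real.exp (-(η ^ 2 / 4 * ((p : ℝ) * (Fintype.card V - 1 : ℕ)))) := by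
  classical
  set R := Real.exp (-(η ^ 2 / 4 * ((p : ℝ) * (Fintype.card V - 1 : ℕ)))) with hR
  have hsub : badDeg (V := V) (p : ℝ) η ⊆ ⋃ v ∈ (univ : Finset V),
      ({G | (#(star v ∩ ed G) : ℝ) ≤ (1 - η) * (p * #(star v))} ∪
        {G | (1 + η) * ((p : ℝ) * #(star v)) ≤ #(star v ∩ ed G)}) := by
    rintro G ⟨v, hv⟩
    simp only [Set.mem_iUnion]
    refine ⟨v, mem_univ v, ?_⟩
    rw [Set.mem_union, Set.mem_ofPred_eq, Set.mem_ofPred_eq, star_inter, star_card]
    exact hv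
  refine (measureReal_mono hsub (measure_ne_top _ _)).trans ?_
  refine (measureReal_biUnion_finset_le _ _).trans ?_
  have : ∀ v ∈ (univ : Finset V), (G(V, p)).real
      ({G | (#(star v ∩ ed G) : ℝ) ≤ (1 - η) * (p * #(star v))} ∪
        {G | (1 + η) * ((p : ℝ) * #(star v)) ≤ #(star v ∩ ed G)}) ≤ 2 * R := by
    intro v _
    refine (measureReal_union_le _ _).trans ?_
    have h2 := chernoff_lower p (star_subset v) h0 h1
      {G | (#(star v ∩ ed G) : ℝ) ≤ (1 - η) * (p * #(star v))} (fun G hG => hG)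
    have h3 := chernoff_upper p (star_subset v) h0 h1
      {G | (1 + η) * ((p : ℝ) * #(star v)) ≤ #(star v ∩ ed G)} (fun G hG => hG)
    rw [star_card, ← hR] at h2 h3
    rw [star_card]
    linarith
  refine (Finset.sum_le_sum this).trans ?_
  rw [Finset.sum_const, card_univ, nsmul_eq_mul]
  linarith [mul_comm (2 : ℝ) (Fintype.card V : ℝ)]

/-- Some pair of disjoint `m`-sets spans few edges. -/
def badPair (p : ℝ) (m : ℕ) : Set (SimpleGraph V) :=
  {G | ∃ A B : Finset V, Disjoint A B ∧ #A = m ∧ #B = m ∧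
    (#(between G A B) : ℝ) ≤ (1 - 1 / 2) * (p * (m * m : ℕ))}

lemma badPair_le (p : I) (m : ℕ) :
    (G(V, p)).real (badPair (V := V) (p : ℝ) m) ≤
      ((Fintype.card V : ℝ) ^ m * (Fintype.card V : ℝ) ^ m) *
        Real.exp (-((1 / 2) ^ 2 / 4 * ((p : ℝ) * (m * m : ℕ)))) := by
  classical
  set R := Real.exp (-((1 / 2) ^ 2 / 4 * ((p : ℝ) * (m * m : ℕ)))) with hR
  set P := (powersetCard m (univ : Finset V)) ×ˢ (powersetCard m (univ : Finset V)) with hP
  have hsub : badPair (V := V) (p : ℝ) m ⊆ ⋃ q ∈ P,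
      {G | Disjoint q.1 q.2 ∧ (#(prs q.1 q.2 ∩ ed G) : ℝ) ≤ (1 - 1 / 2) * (p * (m * m : ℕ))} := by
    rintro G ⟨A, B, hd, hA, hB, h⟩
    simp only [Set.mem_iUnion]
    refine ⟨(A, B), ?_, hd, ?_⟩
    · rw [hP, mem_product, mem_powersetCard, mem_powersetCard]
      exact ⟨⟨subset_univ _, hA⟩, subset_univ _, hB⟩
    · rw [prs_inter]; exact h
  refine (measureReal_mono hsub (measure_ne_top _ _)).trans ?_
  refine (measureReal_biUnion_finset_le _ _).trans ?_
  have : ∀ q ∈ P, (G(V, p)).real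
      {G | Disjoint q.1 q.2 ∧ (#(prs q.1 q.2 ∩ ed G) : ℝ) ≤ (1 - 1 / 2) * (p * (m * m : ℕ))}
        ≤ R := by
    rintro ⟨A, B⟩ hq
    rw [hP, mem_product, mem_powersetCard, mem_powersetCard] at hq
    by_cases hd : Disjoint A B
    · have hc : #(prs A B) = m * m := by rw [prs_card hd, hq.1.2, hq.2.2]
      have h2 := chernoff_lower p (prs_subset hd) (η := 1 / 2) (by norm_num) (by norm_num)
        {G | Disjoint A B ∧ (#(prs A B ∩ ed G) : ℝ) ≤ (1 - 1 / 2) * (p * (m * m : ℕ))}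
        (fun G hG => by rw [hc]; exact hG.2)
      rw [hc] at h2
      exact h2
    · have : {G : SimpleGraph V | Disjoint A B ∧
          (#(prs A B ∩ ed G) : ℝ) ≤ (1 - 1 / 2) * (p * (m * m : ℕ))} = ∅ := by
        ext G
        simp [hd]
      simp only [this, measureReal_empty]
      exact (Real.exp_pos _).le
  refine (Finset.sum_le_sum this).trans ?_
  rw [Finset.sum_const, nsmul_eq_mul]
  refine mul_le_mul_of_nonneg_right ?_ (Real.exp_pos _).le
  rw [hP, card_product, card_powersetCard, card_univ]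
  push_cast
  have h3 : ((Fintype.card V).choose m : ℝ) ≤ (Fintype.card V : ℝ) ^ m := by
    exact_mod_cast Nat.choose_le_pow _ _
  exact mul_le_mul h3 h3 (by positivity) (by positivity)

end finite

/-- Exact formula and inequality for a graph avoiding both bad events. -/
lemma good_of_not_bad {V : Type*} [Fintype V] {G : SimpleGraph V}
    {k m : ℕ} {p : ℝ} (hk : 2 ≤ k) (hp : 0 < p)
    (hn1 : 2 ≤ Fintype.card V)
    (hm : 4 * k * k * Fintype.card V ≤ m * m)
    (hq : 8 * (k : ℝ) * (k + m) < p * (Fintype.card V - 1 : ℕ))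
    (h1 : G ∉ badDeg (V := V) p (1 / (4 * k))) (h2 : G ∉ badPair (V := V) p m) :
    Good G k m ⌈(1 - 1 / (4 * k : ℝ)) * (p * (Fintype.card V - 1 : ℕ))⌉₊
      ⌊(1 + 1 / (4 * k : ℝ)) * (p * (Fintype.card V - 1 : ℕ))⌋₊ := by
  set q := p * (Fintype.card V - 1 : ℕ) with hqdef
  have hkR : (2 : ℝ) ≤ k := by exact_mod_cast hk
  have hmR : (0 : ℝ) ≤ m := Nat.cast_nonneg m
  have hqpos : 0 < q := by
    have : 0 ≤ 8 * (k : ℝ) * (k + m) := by positivity
    linarith
  have hη : 0 < 1 / (4 * (k : ℝ)) := by positivity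
  have hη1 : 1 / (4 * (k : ℝ)) ≤ 1 := by
    rw [div_le_one (by positivity)]; linarith
  have hqn : q ≤ p * Fintype.card V := by
    rw [hqdef]
    refine mul_le_mul_of_nonneg_left ?_ hp.le
    exact_mod_cast Nat.sub_le _ _
  simp only [badDeg, Set.mem_ofPred_eq, not_exists, not_or, not_le] at h1
  simp only [badPair, Set.mem_ofPred_eq, not_exists, not_and, not_le] at h2
  refine ⟨?_, ?_, ?_, ?_⟩
  · intro v
    rw [Nat.ceil_le]
    exact (h1 v).1.le
  · intro v
    exact Nat.le_floor (h1 v).2.le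
  · intro A B hd hA hB
    have h3 := h2 A B hd hA hB
    have h4 : ((k - 1 : ℕ) : ℝ) * (⌊(1 + 1 / (4 * k : ℝ)) * q⌋₊ : ℝ) ≤ k * (2 * (p * Fintype.card V)) := by
      have h5 : (⌊(1 + 1 / (4 * k : ℝ)) * q⌋₊ : ℝ) ≤ 2 * (p * Fintype.card V) := by
        refine (Nat.floor_le (by positivity)).trans ?_
        nlinarith
      have h6 : ((k - 1 : ℕ) : ℝ) ≤ k := by exact_mod_cast Nat.sub_le _ _
      exact mul_le_mul h6 h5 (by positivity) (by positivity)
    have h7 : (k : ℝ) * (2 * (p * Fintype.card V)) ≤ (1 - 1 / 2) * (p * (m * m : ℕ)) := by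
      have h8 : (4 * k * k * Fintype.card V : ℝ) ≤ (m * m : ℕ) := by exact_mod_cast hm
      have h9 : (4 * k * Fintype.card V : ℝ) ≤ 4 * k * k * Fintype.card V := by
        have : (0 : ℝ) ≤ 4 * k * Fintype.card V := by positivity
        nlinarith
      nlinarith
    have h10 : ((k - 1 : ℕ) : ℝ) * (⌊(1 + 1 / (4 * k : ℝ)) * q⌋₊ : ℝ) < #(between G A B) := by
      linarith
    exact_mod_cast h10
  · have h3 : (⌊(1 + 1 / (4 * k : ℝ)) * q⌋₊ : ℝ) ≤ (1 + 1 / (4 * k : ℝ)) * q :=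
      Nat.floor_le (by positivity)
    have h4 : (1 - 1 / (4 * k : ℝ)) * q ≤ ⌈(1 - 1 / (4 * k : ℝ)) * q⌉₊ := Nat.le_ceil _
    have h5 : ((k - 1 : ℕ) : ℝ) = k - 1 := by
      rw [Nat.cast_sub (by omega)]; simp
    have h6 : ((k : ℝ) - 1) * ((1 + 1 / (4 * k : ℝ)) * q) + k * k + k * (2 * m + k) <
        k * ((1 - 1 / (4 * k : ℝ)) * q) := by
      have e1 : (k : ℝ) * (1 / (4 * k : ℝ)) = 1 / 4 := by field_simp
      have e2 : k * ((1 - 1 / (4 * k : ℝ)) * q) = k * q - (k * (1 / (4 * k : ℝ))) * q := by ring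
      have e3 : ((k : ℝ) - 1) * ((1 + 1 / (4 * k : ℝ)) * q) =
          (k - 1) * q + (k * (1 / (4 * k : ℝ))) * q - 1 / (4 * k : ℝ) * q := by ring
      rw [e2, e3, e1]
      have e4 : 0 ≤ 1 / (4 * k : ℝ) * q := by positivity
      nlinarith
    have h7 : ((k - 1 : ℕ) : ℝ) * (⌊(1 + 1 / (4 * k : ℝ)) * q⌋₊ : ℝ) + k * k + k * (2 * m + k) <
        k * (⌈(1 - 1 / (4 * k : ℝ)) * q⌉₊ : ℝ) := by
      rw [h5]
      have e5 : ((k : ℝ) - 1) * (⌊(1 + 1 / (4 * k : ℝ)) * q⌋₊ : ℝ) ≤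
          ((k : ℝ) - 1) * ((1 + 1 / (4 * k : ℝ)) * q) :=
        mul_le_mul_of_nonneg_left h3 (by linarith)
      have e6 : (k : ℝ) * ((1 - 1 / (4 * k : ℝ)) * q) ≤ k * (⌈(1 - 1 / (4 * k : ℝ)) * q⌉₊ : ℝ) :=
        mul_le_mul_of_nonneg_left h4 (by linarith)
      linarith
    exact_mod_cast h7

end Pool.Agent.V11328.E6
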